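import Pool.Agent.Lib.MP_ad9325_ag.MatGroup

/-! Products, subgroups and coordinate changes of chart data of matrix groups. -/

open scoped Manifold ContDiff Topology
open Set Filter

set_option linter.style.haveILetI false
set_option linter.unusedSectionVars false

noncomputable section

namespace Pool.Agent.Lib.AD7
open Pool.Agent.Lib.MP_ad9325_ag

variable {E : Type} [NormedAddCommGroup E] [NormedSpace ℂ E]
  {G : Type} [Group G] [TopologicalSpace G] [IsTopologicalGroup G]
  {R : Type} [NormedRing R] [NormedAlgebra ℂ R]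
  {val : G →* R} {φ : OpenPartialHomeomorph G E} {L : R →L[ℂ] E}

theorem data_prod {E' : Type} [NormedAddCommGroup E'] [NormedSpace ℂ E']
    {G' : Type} [Group G'] [TopologicalSpace G'] [IsTopologicalGroup G']
    {R' : Type} [NormedRing R'] [NormedAlgebra ℂ R']
    {val' : G' →* R'} {φ' : OpenPartialHomeomorph G' E'} {L' : R' →L[ℂ] E'}
    (h : ChartData val φ L) (h' : ChartData val' φ' L') :
    ChartData (val.prodMap val') (φ.prod φ') (L.prodMap L') where
  one := ⟨h.one, h'.one⟩
  cont := h.cont.prodMap h'.cont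
  lin x hx := Prod.ext (h.lin _ hx.1) (h'.lin _ hx.2)
  symm := (h.symm.comp contDiffOn_fst fun _ hy => hy.1).prodMk
    (h'.symm.comp contDiffOn_snd fun _ hy => hy.2)
  inv := by
    obtain ⟨J, hJ, e⟩ := h.inv
    obtain ⟨J', hJ', e'⟩ := h'.inv
    exact ⟨Prod.map J J', (hJ.comp contDiff_fst).prodMk (hJ'.comp contDiff_snd),
      fun g => Prod.ext (e g.1) (e' g.2)⟩

theorem data_congr {E' : Type} [NormedAddCommGroup E'] [NormedSpace ℂ E'] (e : E ≃L[ℂ] E')
    (h : ChartData val φ L) :
    ChartData val (φ.transHomeomorph e.toHomeomorph) ((e : E →L[ℂ] E').comp L) where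
  one := h.one
  cont := h.cont
  lin x hx := congrArg e (h.lin x hx)
  symm := h.symm.comp e.symm.contDiff.contDiffOn fun _ hy => hy
  inv := h.inv

section Sub
variable {EH F : Type} [NormedAddCommGroup EH] [NormedSpace ℂ EH]
  [NormedAddCommGroup F] [NormedSpace ℂ F] {H : Subgroup G} {e : (EH × F) ≃L[ℂ] E}

open Classical in
/-- the chart of a subgroup that is a linear slice of the chart -/
def subChart (φ : OpenPartialHomeomorph G E) (H : Subgroup G) (e : (EH × F) ≃L[ℂ] E)
    (hH : ∀ g ∈ φ.source, g ∈ H ↔ (e.symm (φ g)).2 = 0) : OpenPartialHomeomorph H EH where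
  toFun k := (e.symm (φ k)).1
  invFun y := if h : e (y, 0) ∈ φ.target then
    ⟨φ.symm (e (y, 0)), (hH _ (φ.map_target h)).mpr (by rw [φ.right_inv h]; simp)⟩ else 1
  source := Subtype.val ⁻¹' φ.source
  target := {y | e (y, 0) ∈ φ.target}
  map_source' k hk := by
    change e ((e.symm (φ k)).1, 0) ∈ φ.target
    rw [← (hH _ hk).mp k.2, Prod.mk.eta, e.apply_symm_apply]
    exact φ.map_source hk
  map_target' y hy := by
    have hy' : e (y, 0) ∈ φ.target := hy
    rw [dif_pos hy']
    exact φ.map_target hy'
  left_inv' k hk := by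
    have h1 : e ((e.symm (φ k)).1, 0) = φ k := by
      rw [← (hH _ hk).mp k.2, Prod.mk.eta, e.apply_symm_apply]
    rw [dif_pos (by rw [h1]; exact φ.map_source hk)]
    exact Subtype.ext (by simp only [h1]; exact φ.left_inv hk)
  right_inv' y hy := by
    have hy' : e (y, 0) ∈ φ.target := hy
    rw [dif_pos hy']
    simp only [φ.right_inv hy', e.symm_apply_apply]
  open_source := φ.open_source.preimage continuous_subtype_val
  open_target := φ.open_target.preimage (by fun_prop)
  continuousOn_toFun := continuous_fst.comp_continuousOn (e.symm.continuous.comp_continuousOn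
    (φ.continuousOn.comp continuous_subtype_val.continuousOn fun _ hk => hk))
  continuousOn_invFun := by
    rw [Topology.IsInducing.subtypeVal.continuousOn_iff]
    refine ContinuousOn.congr (f := fun y => φ.symm (e (y, 0)))
      (φ.continuousOn_symm.comp (Continuous.continuousOn (by fun_prop)) fun _ hy => hy)
      fun y hy => ?_
    have hy' : e (y, 0) ∈ φ.target := hy
    exact congrArg Subtype.val (dif_pos hy')

variable {hH : ∀ g ∈ φ.source, g ∈ H ↔ (e.symm (φ g)).2 = 0}

theorem subChart_symm {y : EH} (hy : y ∈ (subChart φ H e hH).target) :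
    (((subChart φ H e hH).symm y : H) : G) = φ.symm (e (y, 0)) := by
  have hy' : e (y, 0) ∈ φ.target := hy
  exact congrArg Subtype.val (dif_pos hy')

theorem data_sub (h : ChartData val φ L)
    (hH : ∀ g ∈ φ.source, g ∈ H ↔ (e.symm (φ g)).2 = 0) :
    ChartData (val.comp H.subtype) (subChart φ H e hH)
      ((ContinuousLinearMap.fst ℂ EH F).comp ((e.symm : E →L[ℂ] EH × F).comp L)) where
  one := h.one
  cont := h.cont.comp continuous_subtype_val
  lin x hx := congrArg (fun z => (e.symm z).1) (h.lin x hx)
  symm := ContDiffOn.congr (f := fun y => val (φ.symm (e (y, 0))))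
    (h.symm.comp (ContDiff.contDiffOn (by fun_prop)) fun _ hy => hy)
    fun _ hy => congrArg val (subChart_symm hy)
  inv := by
    obtain ⟨J, hJ, e⟩ := h.inv
    exact ⟨J, hJ, fun g => e g⟩

theorem sub_emb (h : ChartData val φ L)
    (hH : ∀ g ∈ φ.source, g ∈ H ↔ (e.symm (φ g)).2 = 0) :
    letI := translCS φ h.one
    letI := translCS _ (data_sub h hH).one
    Manifold.IsSmoothEmbedding 𝓘(ℂ, EH) 𝓘(ℂ, E) ω (Subtype.val : H → G) := by
  letI := translCS φ h.one
  letI := translCS _ (data_sub h hH).one
  haveI := h.isManifold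
  haveI := (data_sub h hH).isManifold
  refine ⟨⟨F, inferInstance, inferInstance, fun k => ?_⟩, Topology.IsEmbedding.subtypeVal⟩
  refine Manifold.IsImmersionAtOfComplement.mk_of_charts e (chartAt EH k) (chartAt E (k : G))
    (mem_chart_source _ _) (mem_chart_source _ _) (IsManifold.chart_mem_maximalAtlas _)
    (IsManifold.chart_mem_maximalAtlas _) (fun x hx => ⟨trivial, hx.2⟩) ?_
  intro y hy
  have hy' : y ∈ (subChart φ H e hH).target := hy.2.1
  change φ ((k : G)⁻¹ * ((k⁻¹⁻¹ * (subChart φ H e hH).symm y : H) : G)) = e (y, 0)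
  rw [inv_inv, Subgroup.coe_mul, inv_mul_cancel_left, subChart_symm hy']
  exact φ.right_inv hy'

end Sub

/-- maps into the group are holomorphic when their matrices are -/
theorem contMDiffAt_of_val (h : ChartData val φ L) (hi : Topology.IsInducing val)
    {E' : Type} [NormedAddCommGroup E'] [NormedSpace ℂ E'] {H' : Type} [TopologicalSpace H']
    {N : Type} [TopologicalSpace N] [ChartedSpace H' N] {I : ModelWithCorners ℂ E' H'}
    {f : N → G} {x : N} (hf : ContMDiffAt I 𝓘(ℂ, R) ω (fun y => val (f y)) x) :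
    letI := translCS φ h.one; ContMDiffAt I 𝓘(ℂ, E) ω f x :=
  h.contMDiffAt_of_val (hi.continuousAt_iff.mpr hf.continuousAt) hf

end Pool.Agent.Lib.AD7
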