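import Pool.Agent.Lib.AD7.Plane

/-! The compact curve `y ^ 2 = x ^ 5 + 1` (one point at infinity): topology. -/

open scoped ContDiff Topology
open Set Filter

noncomputable section

namespace Pool.Agent.Lib.AD7

/-- equation of the affine curve -/
def Q0 (p : ℂ × ℂ) : ℂ := p.2 ^ 2 - (p.1 ^ 5 + 1)

/-- equation of the curve near infinity, in the coordinates `t = x ^ 2 / y`, `w = 1 / x` -/
def Q1 (q : ℂ × ℂ) : ℂ := q.1 ^ 2 * (1 + q.2 ^ 5) - q.2

abbrev C0 : Type := {p // Q0 p = 0}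
abbrev C1 : Type := {q // Q1 q = 0}

theorem Q0_iff {p : ℂ × ℂ} : Q0 p = 0 ↔ p.2 ^ 2 = p.1 ^ 5 + 1 := sub_eq_zero
theorem Q1_iff {q : ℂ × ℂ} : Q1 q = 0 ↔ q.1 ^ 2 * (1 + q.2 ^ 5) = q.2 := sub_eq_zero

/-- The compact curve. -/
def Crv : Type := OnePoint C0

instance : TopologicalSpace Crv := inferInstanceAs (TopologicalSpace (OnePoint C0))

theorem isClosed_C0 : IsClosed {p | Q0 p = 0} :=
  isClosed_eq (by unfold Q0; fun_prop) continuous_const

instance : LocallyCompactSpace C0 := isClosed_C0.locallyCompactSpace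

theorem compact_le (R : ℝ) : IsCompact {p : C0 | ‖p.1.1‖ ≤ R} := by
  rw [isClosed_C0.isClosedEmbedding_subtypeVal.isCompact_iff]
  refine (isCompact_closedBall (0 : ℂ × ℂ) (|R| ^ 5 + |R| + 2)).of_isClosed_subset
    (isClosed_C0.isClosedMap_subtype_val _ (isClosed_le (by fun_prop) continuous_const)) ?_
  rintro _ ⟨p, hp, rfl⟩
  have h0 : ‖p.1.1‖ ≤ |R| := le_trans hp (le_abs_self R)
  have h1 : ‖p.1.2‖ ^ 2 ≤ |R| ^ 5 + 1 := by
    rw [← norm_pow, Q0_iff.mp p.2]
    refine (norm_add_le _ _).trans ?_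
    rw [norm_pow, norm_one]; gcongr
  have h2 : 0 ≤ |R| ^ 5 := by positivity
  rw [mem_closedBall_zero_iff, Prod.norm_def]
  exact max_le (by linarith) (by nlinarith [norm_nonneg p.1.2, abs_nonneg R])

theorem exists_y (x : ℂ) : ∃ y, Q0 (x, y) = 0 := by
  obtain ⟨y, hy⟩ := IsAlgClosed.exists_pow_nat_eq (x ^ 5 + 1) two_pos
  exact ⟨y, Q0_iff.mpr hy⟩

instance : ConnectedSpace C0 :=
  connected_hyp (f := fun x => x ^ 5 + 1) (z := -1) (by fun_prop) (by norm_num) {p | Q0 p = 0}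
    fun _ => Q0_iff

instance : NoncompactSpace C0 := ⟨fun h => by
  obtain ⟨R, hR⟩ := (h.image (f := fun p : C0 => p.1.1) (by fun_prop)).isBounded.exists_norm_le
  obtain ⟨y, hy⟩ := exists_y ((|R| + 1 : ℝ) : ℂ)
  have h1 := hR _ ⟨⟨_, hy⟩, mem_univ _, rfl⟩
  rw [Complex.norm_real, Real.norm_eq_abs] at h1
  linarith [le_abs_self (|R| + 1), le_abs_self R]⟩

instance : CompactSpace Crv := inferInstanceAs (CompactSpace (OnePoint C0))
instance : T2Space Crv := inferInstanceAs (T2Space (OnePoint C0))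
instance : ConnectedSpace Crv := inferInstanceAs (ConnectedSpace (OnePoint C0))

/-- the point at infinity -/
def inf : Crv := OnePoint.infty

/-- the inclusion of the affine curve -/
def i0 (p : C0) : Crv := OnePoint.some p

/-- the affine coordinates (zero at infinity) -/
def xy (z : Crv) : ℂ × ℂ := OnePoint.elim z 0 Subtype.val

def tau (p : ℂ × ℂ) : ℂ × ℂ := (p.1 ^ 2 / p.2, p.1⁻¹)
def sig (q : ℂ × ℂ) : ℂ × ℂ := (q.2⁻¹, (q.2 ^ 2 * q.1)⁻¹)

/-- the coordinates `t = x ^ 2 / y`, `w = 1 / x` near infinity -/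
def tw (z : Crv) : ℂ × ℂ := tau (xy z)

open Classical in
/-- the point with given affine coordinates -/
def pt (p : ℂ × ℂ) : Crv := if h : Q0 p = 0 then i0 ⟨p, h⟩ else inf

def U0 : Set Crv := {z | z ≠ inf}
def U1 : Set Crv := {z | z = inf ∨ ((xy z).1 ≠ 0 ∧ (xy z).2 ≠ 0)}

@[simp] theorem xy_inf : xy inf = 0 := rfl
@[simp] theorem xy_i0 (p : C0) : xy (i0 p) = p := rfl
@[simp] theorem tw_inf : tw inf = 0 := by simp [tw, tau]
theorem i0_ne (p : C0) : i0 p ≠ inf := OnePoint.coe_ne_infty p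
theorem emb_i0 : Topology.IsOpenEmbedding i0 := OnePoint.isOpenEmbedding_coe
theorem exists_i0 {z : Crv} (h : z ∈ U0) : ∃ p, i0 p = z := OnePoint.ne_infty_iff_exists.mp h
theorem pt_eq {p : ℂ × ℂ} (h : Q0 p = 0) : pt p = i0 ⟨p, h⟩ := dif_pos h
theorem xy_pt {p : ℂ × ℂ} (h : Q0 p = 0) : xy (pt p) = p := by rw [pt_eq h]; rfl
theorem pt_mem {p : ℂ × ℂ} (h : Q0 p = 0) : pt p ∈ U0 := by rw [pt_eq h]; exact i0_ne _
theorem Q0_xy {z : Crv} (h : z ∈ U0) : Q0 (xy z) = 0 := by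
  obtain ⟨p, rfl⟩ := exists_i0 h; exact p.2
theorem pt_xy {z : Crv} (h : z ∈ U0) : pt (xy z) = z := by
  obtain ⟨p, rfl⟩ := exists_i0 h; exact pt_eq p.2
theorem inf_mem : inf ∈ U1 := Or.inl rfl
theorem mem_U1 {z : Crv} (h : z ∈ U0) : z ∈ U1 ↔ (xy z).1 ≠ 0 ∧ (xy z).2 ≠ 0 := or_iff_right h
theorem cover (z : Crv) : z ∈ U0 ∨ z ∈ U1 := (ne_or_eq z inf).imp id Or.inl
theorem isOpen_U0 : IsOpen U0 := isOpen_ne

theorem ne_of_one_lt (p : C0) (h : 1 < ‖p.1.1‖) : p.1.1 ≠ 0 ∧ p.1.2 ≠ 0 := by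
  refine ⟨fun h0 => by rw [h0, norm_zero] at h; linarith, fun h0 => ?_⟩
  have h1 := Q0_iff.mp p.2
  rw [h0, zero_pow two_ne_zero, eq_comm, add_eq_zero_iff_eq_neg] at h1
  have h2 := congrArg norm h1
  rw [norm_pow, norm_neg, norm_one] at h2
  exact absurd h2 (one_lt_pow₀ h (by norm_num)).ne'

theorem isOpen_U1 : IsOpen U1 := by
  have h : ((OnePoint.some : C0 → OnePoint C0) ⁻¹' U1)ᶜ = {p | p.1.1 = 0} ∪ {p | p.1.2 = 0} := by
    ext p
    exact (not_congr (mem_U1 (i0_ne p))).trans (by simp; tauto)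
  have hc : IsClosed ({p : C0 | p.1.1 = 0} ∪ {p | p.1.2 = 0}) :=
    (isClosed_eq (by fun_prop) continuous_const).union (isClosed_eq (by fun_prop) continuous_const)
  refine (OnePoint.isOpen_iff_of_mem inf_mem).mpr ?_
  rw [h]
  refine ⟨hc, (compact_le 1).of_isClosed_subset hc fun p hp =>
    (le_of_not_gt fun h1 => ?_ : ‖p.1.1‖ ≤ 1)⟩
  exact hp.elim (ne_of_one_lt p h1).1 (ne_of_one_lt p h1).2

theorem continuousAt_xy {z : Crv} (h : z ∈ U0) : ContinuousAt xy z := by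
  obtain ⟨p, rfl⟩ := exists_i0 h
  exact OnePoint.continuousAt_coe.mpr continuous_subtype_val.continuousAt

theorem Q1_tw {z : Crv} (h : z ∈ U1) : Q1 (tw z) = 0 := by
  by_cases h0 : z ∈ U0
  · obtain ⟨h1, h2⟩ := (mem_U1 h0).mp h
    have h3 := Q0_iff.mp (Q0_xy h0)
    simp only [Q1, tw, tau]; field_simp; linear_combination -h3
  · rw [not_not.mp h0]; simp [Q1]

theorem sig_tw {z : Crv} (h : z ∈ U1) : sig (tw z) = xy z := by
  by_cases h0 : z ∈ U0
  · obtain ⟨h1, h2⟩ := (mem_U1 h0).mp h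
    refine Prod.ext (inv_inv _) ?_
    simp only [sig, tw, tau]; field_simp
  · rw [not_not.mp h0]; simp [sig]

theorem tendsto_x : Tendsto (fun p : C0 => p.1.1) (coclosedCompact C0) (Bornology.cobounded ℂ) := by
  rw [← tendsto_norm_atTop_iff_cobounded, coclosedCompact_eq_cocompact, tendsto_atTop]
  exact fun R => mem_of_superset (compact_le R).compl_mem_cocompact fun p hp =>
    le_of_not_ge (show ¬ ‖p.1.1‖ ≤ R from hp)

theorem continuousAt_tw {z : Crv} (h : z ∈ U1) : ContinuousAt tw z := by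
  by_cases h0 : z ∈ U0
  · obtain ⟨h1, h2⟩ := (mem_U1 h0).mp h
    have h3 := continuousAt_xy h0
    exact ((h3.fst.pow 2).div h3.snd h2).prodMk (h3.fst.inv₀ h1)
  · rw [not_not.mp h0]
    refine OnePoint.continuousAt_infty'.mpr ?_
    have h1 : Tendsto (fun p : C0 => (tw (i0 p)).2) (coclosedCompact C0) (𝓝 0) :=
      tendsto_inv₀_cobounded.comp tendsto_x
    have h2 := ((h1.div ((h1.pow 5).const_add 1) (by simp)).norm).sqrt
    simp only [zero_div, norm_zero, Real.sqrt_zero] at h2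
    have h3 : Tendsto (fun p : C0 => (tw (i0 p)).1) (coclosedCompact C0) (𝓝 0) := by
      refine tendsto_zero_iff_norm_tendsto_zero.mpr (h2.congr' ?_)
      filter_upwards [OnePoint.tendsto_coe_infty (isOpen_U1.mem_nhds inf_mem),
        ((h1.pow 5).const_add 1).eventually_ne (b₂ := 0) (by simp)] with p hp hq
      rw [Pi.div_apply, (div_eq_iff hq).mpr (Q1_iff.mp (Q1_tw (z := i0 p) hp)).symm, norm_pow,
        Real.sqrt_sq (norm_nonneg _)]
    exact (show tw inf = (0, 0) from tw_inf) ▸ h3.prodMk_nhds h1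

theorem ne_of_Q1 {q : ℂ × ℂ} (h : Q1 q = 0) (h0 : q.2 ≠ 0) : q.1 ≠ 0 := fun h1 =>
  h0 (by rw [← Q1_iff.mp h, h1]; simp)

theorem Q0_sig {q : ℂ × ℂ} (h : Q1 q = 0) (h0 : q.2 ≠ 0) : Q0 (sig q) = 0 := by
  have h1 := ne_of_Q1 h h0
  have h2 := Q1_iff.mp h
  simp only [Q0, sig]; field_simp; linear_combination -h2

theorem pt_zero : pt 0 = inf := dif_neg (by simp [Q0])

theorem eq_zero_of_Q1 {q : ℂ × ℂ} (h : Q1 q = 0) (h0 : q.2 = 0) : q = 0 :=
  Prod.ext (by simpa [Q1, h0] using h) h0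

/-- the inclusion of the second affine curve -/
def i1 (q : C1) : Crv := pt (sig q)

theorem i1_zero {q : C1} (h : q.1.2 = 0) : i1 q = inf := by
  rw [i1, eq_zero_of_Q1 q.2 h, show sig 0 = 0 by simp [sig], pt_zero]

theorem continuousAt_pt {N : Type} [TopologicalSpace N] {f : N → ℂ × ℂ} {n : N}
    (hf : ContinuousAt f n) (h : ∀ᶠ m in 𝓝 n, Q0 (f m) = 0) :
    ContinuousAt (fun m => pt (f m)) n := by
  classical
  let g : N → C0 := fun m => if h1 : Q0 (f m) = 0 then ⟨f m, h1⟩ else ⟨f n, h.self_of_nhds⟩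
  have h1 : ContinuousAt g n := Topology.IsInducing.subtypeVal.continuousAt_iff.mpr
    (hf.congr (h.mono fun m hm => by simp only [g, Function.comp, dif_pos hm]))
  exact (emb_i0.continuous.continuousAt.comp h1).congr
    (h.mono fun m hm => (congrArg i0 (dif_pos hm)).trans (pt_eq hm).symm)

theorem continuous_i1 : Continuous i1 := by
  refine continuous_iff_continuousAt.mpr fun q => ?_
  have hw : Continuous fun q : C1 => q.1.2 := by fun_prop
  by_cases h : q.1.2 = 0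
  · rw [ContinuousAt, i1_zero h]
    refine OnePoint.le_nhds_infty.mpr fun s _ hs => mem_map.mpr ?_
    obtain ⟨R, hR⟩ := (hs.image (f := fun p : C0 => p.1.1) (by fun_prop)).isBounded.exists_norm_le
    have h1 : ContinuousAt (fun q : C1 => ‖q.1.2‖ * R) q := by fun_prop
    filter_upwards [h1.eventually_lt_const (u := 1) (by simp [h])] with r hr
    by_cases h2 : r.1.2 = 0
    · exact Or.inr (i1_zero h2)
    · refine Or.inl ⟨⟨_, Q0_sig r.2 h2⟩, fun h3 => ?_, (pt_eq _).symm⟩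
      have h4 : ‖r.1.2⁻¹‖ ≤ R := hR _ ⟨_, h3, rfl⟩
      rw [norm_inv, inv_le_iff_one_le_mul₀' (norm_pos_iff.mpr h2)] at h4
      linarith
  · exact continuousAt_pt ((hw.continuousAt.inv₀ h).prodMk (ContinuousAt.inv₀ (by fun_prop)
      (mul_ne_zero (pow_ne_zero 2 h) (ne_of_Q1 q.2 h))))
      ((hw.continuousAt.eventually_ne h).mono fun r hr => Q0_sig r.2 hr)

theorem i1_mem (q : C1) : i1 q ∈ U1 := by
  by_cases h : q.1.2 = 0
  · exact Or.inl (i1_zero h)
  · refine Or.inr ?_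
    rw [i1, xy_pt (Q0_sig q.2 h)]
    exact ⟨inv_ne_zero h, inv_ne_zero (mul_ne_zero (pow_ne_zero 2 h) (ne_of_Q1 q.2 h))⟩

theorem tw_i1 (q : C1) : tw (i1 q) = q := by
  by_cases h : q.1.2 = 0
  · rw [i1_zero h, tw_inf, eq_zero_of_Q1 q.2 h]
  · rw [i1, tw, xy_pt (Q0_sig q.2 h)]
    refine Prod.ext ?_ (inv_inv _)
    simp only [tau, sig]; field_simp

theorem pt_sig_tw {z : Crv} (h : z ∈ U1) : pt (sig (tw z)) = z := by
  rw [sig_tw h]
  by_cases h0 : z ∈ U0
  exacts [pt_xy h0, by rw [not_not.mp h0, xy_inf, pt_zero]]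

open Classical in
/-- `U0` is the affine curve -/
def j0 : OpenPartialHomeomorph Crv C0 where
  toFun z := if h : Q0 (xy z) = 0 then ⟨xy z, h⟩ else Classical.arbitrary _
  invFun := i0
  source := U0
  target := univ
  map_source' _ _ := trivial
  map_target' p _ := i0_ne p
  left_inv' z hz := by rw [dif_pos (Q0_xy hz), ← pt_eq, pt_xy hz]
  right_inv' p _ := dif_pos p.2
  open_source := isOpen_U0
  open_target := isOpen_univ
  continuousOn_toFun := Topology.IsInducing.subtypeVal.continuousOn_iff.mpr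
    (ContinuousOn.congr (fun _ hz => (continuousAt_xy hz).continuousWithinAt)
      fun _ hz => congrArg Subtype.val (dif_pos (Q0_xy hz)))
  continuousOn_invFun := emb_i0.continuous.continuousOn

open Classical in
/-- `U1` is the second affine curve -/
def j1 : OpenPartialHomeomorph Crv C1 where
  toFun z := if h : Q1 (tw z) = 0 then ⟨tw z, h⟩ else ⟨_, Q1_tw inf_mem⟩
  invFun := i1
  source := U1
  target := univ
  map_source' _ _ := trivial
  map_target' p _ := i1_mem p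
  left_inv' z hz := by rw [dif_pos (Q1_tw hz)]; exact pt_sig_tw hz
  right_inv' q _ := by rw [dif_pos (Q1_tw (i1_mem q))]; exact Subtype.ext (tw_i1 q)
  open_source := isOpen_U1
  open_target := isOpen_univ
  continuousOn_toFun := Topology.IsInducing.subtypeVal.continuousOn_iff.mpr
    (ContinuousOn.congr (fun _ hz => (continuousAt_tw hz).continuousWithinAt)
      fun _ hz => congrArg Subtype.val (dif_pos (Q1_tw hz)))
  continuousOn_invFun := continuous_i1.continuousOn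

theorem j0_val {z : Crv} (h : z ∈ U0) : (j0 z).1 = xy z :=
  congrArg Subtype.val (dif_pos (Q0_xy h))

theorem j1_val {z : Crv} (h : z ∈ U1) : (j1 z).1 = tw z :=
  congrArg Subtype.val (dif_pos (Q1_tw h))

end Pool.Agent.Lib.AD7
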