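import Pool.Agent.Lib.AD7.Mfd

/-! Holomorphy of the forms `eta0`, `eta1` and of the dual vector fields. -/

open scoped Manifold ContDiff Topology
open Set Filter Bundle

noncomputable section

namespace Pool.Agent.Lib.AD7
open Pool.Agent.Lib.MP_ad9325_ag

theorem eta0_lin (z : Crv) (v : ℂ) : eta0 z v = v * eta0 z 1 := by
  have h : dxy z v = v • dxy z 1 := by rw [← map_smul, smul_eq_mul, mul_one]
  simp only [eta0, h, Prod.smul_fst, Prod.smul_snd, smul_eq_mul]; ring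

theorem eta1_lin (z : Crv) (v : ℂ) : eta1 z v = v * eta1 z 1 := by
  have h : dtw z v = v • dtw z 1 := by rw [← map_smul, smul_eq_mul, mul_one]
  simp only [eta1, h, Prod.smul_fst, Prod.smul_snd, smul_eq_mul]; ring

/-- the vector fields dual to `eta0`, `eta1` -/
def del0 (z : Crv) : ℂ := (eta0 z 1)⁻¹
def del1 (z : Crv) : ℂ := (eta1 z 1)⁻¹

theorem eta0_del0 {z : Crv} (h : z ∈ U0) : eta0 z (del0 z) = 1 := by
  rw [eta0_lin]; exact inv_mul_cancel₀ fun h0 => one_ne_zero (eta0_eq_zero h h0)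

theorem eta1_del1 {z : Crv} (h : z ∈ U1) : eta1 z (del1 z) = 1 := by
  rw [eta1_lin]; exact inv_mul_cancel₀ fun h0 => one_ne_zero (eta1_eq_zero h h0)

theorem eq_eta0 {z : Crv} (h : z ∈ U0) (v : ℂ) : v = eta0 z v * del0 z := by
  rw [eta0_lin, mul_assoc, mul_comm (eta0 z 1), ← eta0_lin, eta0_del0 h, mul_one]

theorem eq_eta1 {z : Crv} (h : z ∈ U1) (v : ℂ) : v = eta1 z v * del1 z := by
  rw [eta1_lin, mul_assoc, mul_comm (eta1 z 1), ← eta1_lin, eta1_del1 h, mul_one]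

theorem del1_eq {z : Crv} (h0 : z ∈ U0) (h1 : z ∈ U1) : del1 z = (tw z).1 ^ 2 * del0 z := by
  rw [eq_eta0 h0 (del1 z), eta0_eq h0 h1, eta1_del1 h1, mul_one]

theorem dxy_del0 {z : Crv} (h : z ∈ U0) : dxy z (del0 z) = ((xy z).2, 5 * (xy z).1 ^ 4 / 2) :=
  Prod.ext (by rw [dx_eq h, eta0_del0 h, mul_one]) (by rw [dy_eq h, eta0_del0 h, mul_one])

theorem dtw_del1 {z : Crv} (h : z ∈ U1) : dtw z (del1 z) =
    (-(1 - 5 * (tw z).1 ^ 2 * (tw z).2 ^ 4) / (2 * (1 + (tw z).2 ^ 5)), -(tw z).1) :=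
  Prod.ext (by rw [dt_eq h, eta1_del1 h, mul_one]) (by rw [dw_eq h, eta1_del1 h, mul_one])

variable {E : Type} [NormedAddCommGroup E] [NormedSpace ℂ E] {H : Type} [TopologicalSpace H]
  {N : Type} [TopologicalSpace N] [ChartedSpace H N] {I : ModelWithCorners ℂ E H} {n : N}
  {b : N → Crv} {v : N → ℂ}

theorem contMDiffAt_D {F : Type} [NormedAddCommGroup F] [NormedSpace ℂ F] {f : Crv → F}
    {s : Set Crv} (hs : IsOpen s) (hf : ∀ z ∈ s, ContMDiffAt 𝓘(ℂ, ℂ) 𝓘(ℂ, F) ω f z)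
    (hZ : ContMDiffAt I 𝓘(ℂ, ℂ).tangent ω
      (fun m => (⟨b m, v m⟩ : TangentBundle 𝓘(ℂ, ℂ) Crv)) n) (h : b n ∈ s) :
    ContMDiffAt I 𝓘(ℂ, F) ω (fun m => D 𝓘(ℂ, ℂ) 𝓘(ℂ, F) f (b m) (v m)) n :=
  (contMDiff_snd_tangentBundle_modelSpace F 𝓘(ℂ, F) _).comp n
    (contMDiffAt_tangent hs (fun z hz => (hf z hz).contMDiffWithinAt) hZ h)

theorem contMDiffAt_base (hZ : ContMDiffAt I 𝓘(ℂ, ℂ).tangent ω
    (fun m => (⟨b m, v m⟩ : TangentBundle 𝓘(ℂ, ℂ) Crv)) n) : ContMDiffAt I 𝓘(ℂ, ℂ) ω b n :=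
  (contMDiffAt_totalSpace.mp hZ).1

theorem contMDiffAt_eta0 (hZ : ContMDiffAt I 𝓘(ℂ, ℂ).tangent ω
    (fun m => (⟨b m, v m⟩ : TangentBundle 𝓘(ℂ, ℂ) Crv)) n) (h : b n ∈ U0) :
    ContMDiffAt I 𝓘(ℂ, ℂ) ω (fun m => eta0 (b m) (v m)) n :=
  (show ContDiff ℂ ω fun p : (ℂ × ℂ) × ℂ × ℂ => p.1.2 * p.2.1 - 2 * p.1.1 / 5 * p.2.2 by
    fun_prop).contMDiff.contMDiffAt.comp n
      (((contMDiffAt_xy h).comp n (contMDiffAt_base hZ)).prodMk_space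
        (contMDiffAt_D isOpen_U0 (fun _ => contMDiffAt_xy) hZ h))

theorem contMDiffAt_eta1 (hZ : ContMDiffAt I 𝓘(ℂ, ℂ).tangent ω
    (fun m => (⟨b m, v m⟩ : TangentBundle 𝓘(ℂ, ℂ) Crv)) n) (h : b n ∈ U1) :
    ContMDiffAt I 𝓘(ℂ, ℂ) ω (fun m => eta1 (b m) (v m)) n := by
  let g : (ℂ × ℂ) × ℂ × ℂ → ℂ := fun p =>
    -2 * (1 + p.1.2 ^ 5) * p.2.1 - 5 * p.1.1 * p.1.2 ^ 4 * p.2.2
  have h1 : ContDiff ℂ ω g := by unfold g; fun_prop
  have h2 : ContMDiffAt I 𝓘(ℂ, (ℂ × ℂ) × ℂ × ℂ) ω (fun m => (tw (b m), dtw (b m) (v m))) n :=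
    ((contMDiffAt_tw h).comp n (contMDiffAt_base hZ)).prodMk_space
      (contMDiffAt_D isOpen_U1 (fun _ => contMDiffAt_tw) hZ h)
  exact (h1.contMDiff.contMDiffAt.comp n h2).congr_of_eventuallyEq
    (Eventually.of_forall fun m => by simp only [eta1, g, Function.comp])

theorem contMDiffAt_vec (hb : ContMDiffAt I 𝓘(ℂ, ℂ) ω b n)
    (h0 : b n ∈ U0 → ContMDiffAt I 𝓘(ℂ, ℂ × ℂ) ω (fun m => dxy (b m) (v m)) n)
    (h1 : b n ∈ U1 → ContMDiffAt I 𝓘(ℂ, ℂ × ℂ) ω (fun m => dtw (b m) (v m)) n) :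
    ContMDiffAt I 𝓘(ℂ, ℂ).tangent ω (fun m => (⟨b m, v m⟩ : TangentBundle 𝓘(ℂ, ℂ) Crv)) n := by
  rw [ModelWithCorners.tangent, contMDiffAt_totalSpace]
  refine ⟨hb, ?_⟩
  have h2 : ∀ᶠ m in 𝓝 n, b m ∈ (chartAt ℂ (b n)).source :=
    hb.continuousAt.preimage_mem_nhds (chart_source_mem_nhds ℂ (b n))
  have h3 : ∀ m, b m ∈ (chartAt ℂ (b n)).source → (trivializationAt ℂ (TangentSpace 𝓘(ℂ, ℂ)) (b n)
      (⟨b m, v m⟩ : TangentBundle 𝓘(ℂ, ℂ) Crv)).2 =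
        D 𝓘(ℂ, ℂ) 𝓘(ℂ, ℂ) (chartAt ℂ (b n)) (b m) (v m) := fun m hm =>
    (congrArg (fun L : ℂ →L[ℂ] ℂ => L (v m)) (mfderiv_chartAt_eq_tangentCoordChange hm)).symm
  rcases (good_chartAt (b n)).c with ⟨l, h⟩ | h
  · refine ((l.contMDiff _).comp n (h0 (h _ (mem_chart_source ℂ _)).1)).congr_of_eventuallyEq
      (h2.mono fun m hm => (h3 m hm).trans ?_)
    rw [D_congr (mem_of_superset ((chartAt ℂ (b n)).open_source.mem_nhds hm) fun w hw => (h w hw).2),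
      D_comp_xy (h _ hm).1 l.differentiableAt, l.fderiv]
    rfl
  · refine (((ContinuousLinearMap.fst ℂ ℂ ℂ).contMDiff _).comp n
      (h1 (h _ (mem_chart_source ℂ _)).1)).congr_of_eventuallyEq
        (h2.mono fun m hm => (h3 m hm).trans ?_)
    rw [D_congr (mem_of_superset ((chartAt ℂ (b n)).open_source.mem_nhds hm) fun w hw => (h w hw).2),
      D_comp_tw (h _ hm).1 differentiableAt_fst, fderiv_fst]
    rfl

/-- a vector along `b` is holomorphic when its `eta0`-coefficient is -/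
theorem contMDiffAt_vec0 (hb : ContMDiffAt I 𝓘(ℂ, ℂ) ω b n) (h : b n ∈ U0)
    (hv : ContMDiffAt I 𝓘(ℂ, ℂ) ω (fun m => eta0 (b m) (v m)) n) :
    ContMDiffAt I 𝓘(ℂ, ℂ).tangent ω (fun m => (⟨b m, v m⟩ : TangentBundle 𝓘(ℂ, ℂ) Crv)) n := by
  have h1 := (contMDiffAt_xy h).comp n hb
  have h2 : ∀ᶠ m in 𝓝 n, b m ∈ U0 := hb.continuousAt.preimage_mem_nhds (isOpen_U0.mem_nhds h)
  have h3 : ContMDiffAt I 𝓘(ℂ, ℂ × ℂ) ω (fun m => dxy (b m) (v m)) n :=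
    ((show ContDiff ℂ ω fun p : (ℂ × ℂ) × ℂ => (p.1.2 * p.2, 5 * p.1.1 ^ 4 / 2 * p.2) by
      fun_prop).contMDiff.contMDiffAt.comp n (h1.prodMk_space hv)).congr_of_eventuallyEq
        (h2.mono fun m hm => Prod.ext (dx_eq hm _) (dy_eq hm _))
  refine contMDiffAt_vec hb (fun _ => h3) fun h4 => ?_
  obtain ⟨h5, h6⟩ := (mem_U1 h).mp h4
  have h7 : ContDiffAt ℂ ω (fun p : (ℂ × ℂ) × ℂ × ℂ => fderiv ℂ tau p.1 p.2)
      (xy (b n), dxy (b n) (v n)) :=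
    (((contDiffAt_tau h5 h6).fderiv_right (m := ω) (by simp)).comp (f := Prod.fst)
      (xy (b n), dxy (b n) (v n)) contDiffAt_fst).clm_apply contDiffAt_snd
  refine (h7.contMDiffAt.comp n (h1.prodMk_space h3)).congr_of_eventuallyEq ?_
  filter_upwards [h2, hb.continuousAt.preimage_mem_nhds (isOpen_U1.mem_nhds h4)] with m h8 h9
  obtain ⟨h10, h11⟩ := (mem_U1 h8).mp h9
  exact congrArg (fun L : ℂ →L[ℂ] ℂ × ℂ => L (v m))
    (D_comp_xy h8 ((contDiffAt_tau h10 h11).differentiableAt (by simp)))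

/-- a vector along `b` is holomorphic when its `eta1`-coefficient is -/
theorem contMDiffAt_vec1 (hb : ContMDiffAt I 𝓘(ℂ, ℂ) ω b n) (h : b n ∈ U1)
    (hv : ContMDiffAt I 𝓘(ℂ, ℂ) ω (fun m => eta1 (b m) (v m)) n) :
    ContMDiffAt I 𝓘(ℂ, ℂ).tangent ω (fun m => (⟨b m, v m⟩ : TangentBundle 𝓘(ℂ, ℂ) Crv)) n := by
  have h1 := (contMDiffAt_tw h).comp n hb
  have h2 : ∀ᶠ m in 𝓝 n, b m ∈ U1 := hb.continuousAt.preimage_mem_nhds (isOpen_U1.mem_nhds h)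
  by_cases h0 : b n ∈ U0
  · refine contMDiffAt_vec0 hb h0 (((show ContDiff ℂ ω fun p : (ℂ × ℂ) × ℂ => p.1.1 ^ 2 * p.2 by
      fun_prop).contMDiff.contMDiffAt.comp n (h1.prodMk_space hv)).congr_of_eventuallyEq ?_)
    filter_upwards [h2, hb.continuousAt.preimage_mem_nhds (isOpen_U0.mem_nhds h0)] with m h3 h4
    exact eta0_eq h4 h3 _
  · refine contMDiffAt_vec hb (fun h3 => absurd h3 h0) fun _ => ?_
    have h3 := one_add_ne h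
    have h4 : ContDiffAt ℂ ω (fun p : (ℂ × ℂ) × ℂ =>
        (-(1 - 5 * p.1.1 ^ 2 * p.1.2 ^ 4) / (2 * (1 + p.1.2 ^ 5)) * p.2, -p.1.1 * p.2))
        (tw (b n), eta1 (b n) (v n)) :=
      ContDiffAt.prodMk (ContDiffAt.mul (ContDiffAt.div (by fun_prop) (by fun_prop)
        (mul_ne_zero two_ne_zero h3)) (by fun_prop)) (by fun_prop)
    exact (h4.contMDiffAt.comp n (h1.prodMk_space hv)).congr_of_eventuallyEq
      (h2.mono fun m hm => Prod.ext (dt_eq hm _) (dw_eq hm _))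

theorem contMDiffAt_del0 (hb : ContMDiffAt I 𝓘(ℂ, ℂ) ω b n) (h : b n ∈ U0) :
    ContMDiffAt I 𝓘(ℂ, ℂ).tangent ω
      (fun m => (⟨b m, del0 (b m)⟩ : TangentBundle 𝓘(ℂ, ℂ) Crv)) n :=
  contMDiffAt_vec0 hb h (contMDiffAt_const.congr_of_eventuallyEq (mem_of_superset
    (hb.continuousAt.preimage_mem_nhds (isOpen_U0.mem_nhds h)) fun _ hm => eta0_del0 hm))

theorem contMDiffAt_del1 (hb : ContMDiffAt I 𝓘(ℂ, ℂ) ω b n) (h : b n ∈ U1) :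
    ContMDiffAt I 𝓘(ℂ, ℂ).tangent ω
      (fun m => (⟨b m, del1 (b m)⟩ : TangentBundle 𝓘(ℂ, ℂ) Crv)) n :=
  contMDiffAt_vec1 hb h (contMDiffAt_const.congr_of_eventuallyEq (mem_of_superset
    (hb.continuousAt.preimage_mem_nhds (isOpen_U1.mem_nhds h)) fun _ hm => eta1_del1 hm))

end Pool.Agent.Lib.AD7
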