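import Pool.Agent.Lib.AD7.Curve
import Pool.Agent.Lib.MP_ad9325_ag.Calc

/-! The compact curve `y ^ 2 = x ^ 5 + 1` as a complex manifold. -/

open scoped Manifold ContDiff Topology
open Set Filter

noncomputable section

namespace Pool.Agent.Lib.AD7
open Pool.Agent.Lib.MP_ad9325_ag

theorem contDiffAt_tau {p : ℂ × ℂ} (h1 : p.1 ≠ 0) (h2 : p.2 ≠ 0) : ContDiffAt ℂ ω tau p :=
  ((contDiffAt_fst.pow 2).div contDiffAt_snd h2).prodMk (contDiffAt_fst.inv h1)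

theorem contDiffAt_sig {q : ℂ × ℂ} (h1 : q.1 ≠ 0) (h2 : q.2 ≠ 0) : ContDiffAt ℂ ω sig q :=
  (contDiffAt_snd.inv h2).prodMk
    (((contDiffAt_snd.pow 2).mul contDiffAt_fst).inv (mul_ne_zero (pow_ne_zero 2 h2) h1))

theorem tw_ne {z : Crv} (h0 : z ∈ U0) (h1 : z ∈ U1) : (tw z).1 ≠ 0 ∧ (tw z).2 ≠ 0 := by
  obtain ⟨h2, h3⟩ := (mem_U1 h0).mp h1
  exact ⟨div_ne_zero (pow_ne_zero 2 h2) h3, inv_ne_zero h2⟩

/-- the admissible charts -/
structure Good (φ : OpenPartialHomeomorph Crv ℂ) : Prop where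
  a : ∀ u ∈ φ.target, φ.symm u ∈ U0 → ContDiffAt ℂ ω (fun v => xy (φ.symm v)) u
  b : ∀ u ∈ φ.target, φ.symm u ∈ U1 → ContDiffAt ℂ ω (fun v => tw (φ.symm v)) u
  c : (∃ l : ℂ × ℂ →L[ℂ] ℂ, ∀ z ∈ φ.source, z ∈ U0 ∧ φ z = l (xy z)) ∨
    ∀ z ∈ φ.source, z ∈ U1 ∧ φ z = (tw z).1

theorem fderiv_Q0 (p v : ℂ × ℂ) : fderiv ℂ Q0 p v = 2 * p.2 * v.2 - 5 * p.1 ^ 4 * v.1 := by
  have h := ((hasFDerivAt_snd (𝕜 := ℂ) (p := p)).pow 2).sub
    (((hasFDerivAt_fst (𝕜 := ℂ) (p := p)).pow 5).add_const 1)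
  rw [(show HasFDerivAt Q0 _ p from h).fderiv]
  simp

theorem fderiv_Q1 (p v : ℂ × ℂ) : fderiv ℂ Q1 p v =
    2 * p.1 * (1 + p.2 ^ 5) * v.1 - (1 - 5 * p.1 ^ 2 * p.2 ^ 4) * v.2 := by
  have h := (((hasFDerivAt_fst (𝕜 := ℂ) (p := p)).pow 2).mul
    (((hasFDerivAt_snd (𝕜 := ℂ) (p := p)).pow 5).const_add 1)).sub
      (hasFDerivAt_snd (𝕜 := ℂ) (p := p))
  rw [(show HasFDerivAt Q1 _ p from h).fderiv]
  simp; ring

theorem contDiff_Q0 : ContDiff ℂ ω Q0 := by unfold Q0; fun_prop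
theorem contDiff_Q1 : ContDiff ℂ ω Q1 := by unfold Q1; fun_prop

theorem exists_good (z : Crv) : ∃ φ, z ∈ φ.source ∧ Good φ := by
  by_cases h0 : z ∈ U0
  · obtain ⟨p, rfl⟩ := exists_i0 h0
    obtain ⟨l, hl⟩ : ∃ l : ℂ × ℂ →L[ℂ] ℂ, ∀ v, l v = 0 → fderiv ℂ Q0 p v = 0 → v = 0 := by
      by_cases hy : p.1.2 = 0
      · refine ⟨ContinuousLinearMap.snd ℂ ℂ ℂ, fun v h1 h2 => Prod.ext ?_ h1⟩
        have hx : p.1.1 ≠ 0 := fun hx => by simpa [Q0, hx, hy] using p.2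
        simpa [fderiv_Q0, hy, hx] using h2
      · refine ⟨ContinuousLinearMap.fst ℂ ℂ ℂ, fun v h1 h2 => Prod.ext h1 ?_⟩
        simpa [fderiv_Q0, hy, show v.1 = 0 from h1] using h2
    obtain ⟨φ, h1, h2, h3⟩ := exists_chart p contDiff_Q0.contDiffAt l hl
    have h4 : ∀ u ∈ (j0.trans φ).target,
        ContDiffAt ℂ ω (fun v => xy ((j0.trans φ).symm v)) u := fun u hu =>
      h3.contDiffAt (φ.open_target.mem_nhds hu.1)
    refine ⟨j0.trans φ, ⟨h0, ?_⟩, fun u hu _ => h4 u hu, fun u hu h5 => ?_,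
      Or.inl ⟨l, fun z hz => ⟨hz.1, (h2 _).trans (congrArg l (j0_val hz.1))⟩⟩⟩
    · change j0 (i0 p) ∈ φ.source
      rwa [show j0 (i0 p) = p from j0.right_inv trivial]
    · obtain ⟨h6, h7⟩ := (mem_U1 (i0_ne _)).mp h5
      exact (contDiffAt_tau h6 h7).comp u (h4 u hu)
  · obtain rfl := not_not.mp h0
    obtain ⟨φ, h1, h2, h3⟩ := exists_chart (j1 inf) contDiff_Q1.contDiffAt
      (ContinuousLinearMap.fst ℂ ℂ ℂ) fun v h1 h2 => Prod.ext h1 (by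
        simpa [fderiv_Q1, j1_val inf_mem] using h2)
    have h4 : ∀ u ∈ (j1.trans φ).target,
        ContDiffAt ℂ ω (fun v => tw ((j1.trans φ).symm v)) u := fun u hu =>
      (h3.contDiffAt (φ.open_target.mem_nhds hu.1)).congr_of_eventuallyEq
        (Eventually.of_forall fun v => tw_i1 _)
    refine ⟨j1.trans φ, ⟨inf_mem, h1⟩, fun u hu h5 => ?_, fun u hu _ => h4 u hu,
      Or.inr fun z hz => ⟨hz.1, (h2 _).trans (congrArg Prod.fst (j1_val hz.1))⟩⟩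
    obtain ⟨h6, h7⟩ := tw_ne h5 (i1_mem _)
    exact ((contDiffAt_sig h6 h7).comp (f := fun v => tw ((j1.trans φ).symm v)) u
      (h4 u hu)).congr_of_eventuallyEq
      (Eventually.of_forall fun v => (sig_tw (i1_mem (φ.symm v))).symm)

instance : ChartedSpace ℂ Crv where
  atlas := {φ | Good φ}
  chartAt z := (exists_good z).choose
  mem_chart_source z := (exists_good z).choose_spec.1
  chart_mem_atlas z := (exists_good z).choose_spec.2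

theorem good_chartAt (z : Crv) : Good (chartAt ℂ z) := (exists_good z).choose_spec.2

instance : IsManifold 𝓘(ℂ, ℂ) ω Crv := by
  refine isManifold_of_contDiffOn _ _ _ fun e e' he he' u hu => ?_
  have h1 : u ∈ e.target := hu.1.1
  have h2 : e.symm u ∈ e'.source := hu.1.2
  have h3 : ∀ᶠ v in 𝓝 u, e.symm v ∈ e'.source :=
    (e.continuousAt_symm h1).preimage_mem_nhds (e'.open_source.mem_nhds h2)
  refine ContDiffAt.contDiffWithinAt ?_
  rcases Good.c he' with ⟨l, h⟩ | h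
  · exact (l.contDiff.contDiffAt.comp u (Good.a he u h1 (h _ h2).1)).congr_of_eventuallyEq
      (h3.mono fun v hv => (h _ hv).2)
  · exact (Good.b he u h1 (h _ h2).1).fst.congr_of_eventuallyEq (h3.mono fun v hv => (h _ hv).2)

instance : SecondCountableTopology Crv :=
  ChartedSpace.secondCountable_of_sigmaCompact ℂ Crv

theorem contMDiffAt_of_chart {F : Type} [NormedAddCommGroup F] [NormedSpace ℂ F] {f : Crv → F}
    {z : Crv} (h : ContDiffAt ℂ ω (fun v => f ((chartAt ℂ z).symm v)) (chartAt ℂ z z)) :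
    ContMDiffAt 𝓘(ℂ, ℂ) 𝓘(ℂ, F) ω f z := by
  have h1 := h.contMDiffAt.comp z (contMDiffAt_extChartAt (I := 𝓘(ℂ, ℂ)) (x := z))
  refine h1.congr_of_eventuallyEq ?_
  filter_upwards [chart_source_mem_nhds ℂ z] with w hw
  exact congrArg f ((chartAt ℂ z).left_inv hw).symm

/-- `x` and `y` are holomorphic off infinity. -/
theorem contMDiffAt_xy {z : Crv} (h : z ∈ U0) : ContMDiffAt 𝓘(ℂ, ℂ) 𝓘(ℂ, ℂ × ℂ) ω xy z :=
  contMDiffAt_of_chart ((good_chartAt z).a _ (mem_chart_target ℂ z)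
    (((chartAt ℂ z).left_inv (mem_chart_source ℂ z)).symm ▸ h))

/-- `t` and `w` are holomorphic on `U1`. -/
theorem contMDiffAt_tw {z : Crv} (h : z ∈ U1) : ContMDiffAt 𝓘(ℂ, ℂ) 𝓘(ℂ, ℂ × ℂ) ω tw z :=
  contMDiffAt_of_chart ((good_chartAt z).b _ (mem_chart_target ℂ z)
    (((chartAt ℂ z).left_inv (mem_chart_source ℂ z)).symm ▸ h))

section Into
variable {E : Type} [NormedAddCommGroup E] [NormedSpace ℂ E] {H : Type} [TopologicalSpace H]
  {N : Type} [TopologicalSpace N] [ChartedSpace H N] {I : ModelWithCorners ℂ E H} {n : N}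

theorem contMDiffAt_into {f : N → Crv} (hc : ContinuousAt f n)
    (h0 : f n ∈ U0 → ContMDiffAt I 𝓘(ℂ, ℂ × ℂ) ω (fun m => xy (f m)) n)
    (h1 : f n ∈ U1 → ContMDiffAt I 𝓘(ℂ, ℂ × ℂ) ω (fun m => tw (f m)) n) :
    ContMDiffAt I 𝓘(ℂ, ℂ) ω f n := by
  refine contMDiffAt_iff_target.mpr ⟨hc, ?_⟩
  have h2 := hc.preimage_mem_nhds (chart_source_mem_nhds ℂ (f n))
  rcases (good_chartAt (f n)).c with ⟨l, h⟩ | h
  · exact ((l.contMDiff _).comp n (h0 (h _ (mem_chart_source ℂ _)).1)).congr_of_eventuallyEq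
      (mem_of_superset h2 fun m hm => (h _ hm).2)
  · exact (((ContinuousLinearMap.fst ℂ ℂ ℂ).contMDiff _).comp n
      (h1 (h _ (mem_chart_source ℂ _)).1)).congr_of_eventuallyEq
        (mem_of_superset h2 fun m hm => (h _ hm).2)

/-- `pt` is holomorphic along holomorphic maps into the affine curve. -/
theorem contMDiffAt_pt {g : N → ℂ × ℂ} (hg : ContMDiffAt I 𝓘(ℂ, ℂ × ℂ) ω g n)
    (h : ∀ᶠ m in 𝓝 n, Q0 (g m) = 0) : ContMDiffAt I 𝓘(ℂ, ℂ) ω (fun m => pt (g m)) n := by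
  have h1 : ContMDiffAt I 𝓘(ℂ, ℂ × ℂ) ω (fun m => xy (pt (g m))) n :=
    hg.congr_of_eventuallyEq (h.mono fun m hm => xy_pt hm)
  refine contMDiffAt_into (continuousAt_pt hg.continuousAt h) (fun _ => h1) fun h2 => ?_
  obtain ⟨h3, h4⟩ := (mem_U1 (pt_mem h.self_of_nhds)).mp h2
  exact (contDiffAt_tau h3 h4).contMDiffAt.comp n h1

end Into

theorem inj_of_chart {f : Crv → ℂ × ℂ} {z : Crv} (hf : ContMDiffAt 𝓘(ℂ, ℂ) 𝓘(ℂ, ℂ × ℂ) ω f z)
    {g : ℂ × ℂ → ℂ} (hg : ContDiffAt ℂ ω g (f z))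
    (h : ∀ w ∈ (chartAt ℂ z).source, chartAt ℂ z w = g (f w)) :
    Function.Injective (D 𝓘(ℂ, ℂ) 𝓘(ℂ, ℂ × ℂ) f z) := by
  have h1 := D_comp (hg.contMDiffAt.mdifferentiableAt (by simp)) (hf.mdifferentiableAt (by simp))
  have h2 : D 𝓘(ℂ, ℂ) 𝓘(ℂ, ℂ) (chartAt ℂ z) z = _ :=
    (D_congr (mem_of_superset (chart_source_mem_nhds ℂ z) h)).trans h1
  have h3 : Function.Injective (D 𝓘(ℂ, ℂ) 𝓘(ℂ, ℂ) (chartAt ℂ z) z) :=
    (mdifferentiable_chart (I := 𝓘(ℂ, ℂ)) z).mfderiv_injective (mem_chart_source ℂ z)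
  rw [h2] at h3
  exact Function.Injective.of_comp (f := D 𝓘(ℂ, ℂ × ℂ) 𝓘(ℂ, ℂ) g (f z)) h3

/-- the differentials of the coordinates -/
def dxy (z : Crv) : ℂ →L[ℂ] ℂ × ℂ := D 𝓘(ℂ, ℂ) 𝓘(ℂ, ℂ × ℂ) xy z
def dtw (z : Crv) : ℂ →L[ℂ] ℂ × ℂ := D 𝓘(ℂ, ℂ) 𝓘(ℂ, ℂ × ℂ) tw z

theorem dxy_inj {z : Crv} (h : z ∈ U0) : Function.Injective (dxy z) := by
  rcases (good_chartAt z).c with ⟨l, h1⟩ | h1
  · exact inj_of_chart (contMDiffAt_xy h) l.contDiff.contDiffAt fun w hw => (h1 w hw).2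
  · obtain ⟨h2, h3⟩ := (mem_U1 h).mp (h1 z (mem_chart_source ℂ z)).1
    exact inj_of_chart (contMDiffAt_xy h) (contDiffAt_tau h2 h3).fst fun w hw => (h1 w hw).2

theorem D_comp_xy {F : Type} [NormedAddCommGroup F] [NormedSpace ℂ F] {g : ℂ × ℂ → F} {z : Crv}
    (h : z ∈ U0) (hg : DifferentiableAt ℂ g (xy z)) :
    D 𝓘(ℂ, ℂ) 𝓘(ℂ, F) (fun w => g (xy w)) z = (fderiv ℂ g (xy z)).comp (dxy z) := by
  rw [D_comp hg.mdifferentiableAt ((contMDiffAt_xy h).mdifferentiableAt (by simp)), D_eq_fderiv]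
  rfl

theorem D_comp_tw {F : Type} [NormedAddCommGroup F] [NormedSpace ℂ F] {g : ℂ × ℂ → F} {z : Crv}
    (h : z ∈ U1) (hg : DifferentiableAt ℂ g (tw z)) :
    D 𝓘(ℂ, ℂ) 𝓘(ℂ, F) (fun w => g (tw w)) z = (fderiv ℂ g (tw z)).comp (dtw z) := by
  rw [D_comp hg.mdifferentiableAt ((contMDiffAt_tw h).mdifferentiableAt (by simp)), D_eq_fderiv]
  rfl

theorem dxy_eq {z : Crv} (h0 : z ∈ U0) (h1 : z ∈ U1) :
    dxy z = (fderiv ℂ sig (tw z)).comp (dtw z) := by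
  rw [← D_comp_tw h1 ((contDiffAt_sig (tw_ne h0 h1).1 (tw_ne h0 h1).2).differentiableAt (by simp))]
  exact D_congr (mem_of_superset (isOpen_U1.mem_nhds h1) fun w hw => (sig_tw hw).symm)

theorem dtw_inj {z : Crv} (h : z ∈ U1) : Function.Injective (dtw z) := by
  rcases (good_chartAt z).c with ⟨l, h1⟩ | h1
  · have h2 := dxy_inj (h1 z (mem_chart_source ℂ z)).1
    rw [dxy_eq (h1 z (mem_chart_source ℂ z)).1 h] at h2
    exact Function.Injective.of_comp (f := fderiv ℂ sig (tw z)) h2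
  · exact inj_of_chart (contMDiffAt_tw h) contDiffAt_fst fun w hw => (h1 w hw).2

theorem dxy_rel {z : Crv} (h : z ∈ U0) (v : ℂ) :
    2 * (xy z).2 * (dxy z v).2 = 5 * (xy z).1 ^ 4 * (dxy z v).1 := by
  have h1 := D_comp_xy h (contDiff_Q0.differentiable (by simp) _)
  rw [D_congr (g := fun _ => (0 : ℂ)) (mem_of_superset (isOpen_U0.mem_nhds h) fun w hw => Q0_xy hw),
    D_const] at h1
  have h2 := congrArg (fun L : ℂ →L[ℂ] ℂ => L v) h1
  simp only [zero_apply, ContinuousLinearMap.comp_apply, fderiv_Q0] at h2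
  linear_combination -h2

theorem dtw_rel {z : Crv} (h : z ∈ U1) (v : ℂ) : 2 * (tw z).1 * (1 + (tw z).2 ^ 5) * (dtw z v).1 =
    (1 - 5 * (tw z).1 ^ 2 * (tw z).2 ^ 4) * (dtw z v).2 := by
  have h1 := D_comp_tw h (contDiff_Q1.differentiable (by simp) _)
  rw [D_congr (g := fun _ => (0 : ℂ)) (mem_of_superset (isOpen_U1.mem_nhds h) fun w hw => Q1_tw hw),
    D_const] at h1
  have h2 := congrArg (fun L : ℂ →L[ℂ] ℂ => L v) h1
  simp only [zero_apply, ContinuousLinearMap.comp_apply, fderiv_Q1] at h2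
  linear_combination -h2

/-- the form `dx / y` on `U0` -/
def eta0 (z : Crv) (v : ℂ) : ℂ := (xy z).2 * (dxy z v).1 - 2 * (xy z).1 / 5 * (dxy z v).2

/-- the form `(dx / y) / t ^ 2 = -dw / t` on `U1` -/
def eta1 (z : Crv) (v : ℂ) : ℂ :=
  -2 * (1 + (tw z).2 ^ 5) * (dtw z v).1 - 5 * (tw z).1 * (tw z).2 ^ 4 * (dtw z v).2

theorem dx_eq {z : Crv} (h : z ∈ U0) (v : ℂ) : (dxy z v).1 = (xy z).2 * eta0 z v := by
  have h1 := dxy_rel h v
  have h2 := Q0_iff.mp (Q0_xy h)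
  unfold eta0
  linear_combination (xy z).1 / 5 * h1 - (dxy z v).1 * h2

theorem dy_eq {z : Crv} (h : z ∈ U0) (v : ℂ) :
    (dxy z v).2 = 5 * (xy z).1 ^ 4 / 2 * eta0 z v := by
  have h1 := dxy_rel h v
  have h2 := Q0_iff.mp (Q0_xy h)
  unfold eta0
  linear_combination (xy z).2 / 2 * h1 - (dxy z v).2 * h2

theorem one_add_ne {z : Crv} (h : z ∈ U1) : 1 + (tw z).2 ^ 5 ≠ 0 := fun h0 => by
  have h1 := Q1_iff.mp (Q1_tw h)
  rw [h0, mul_zero] at h1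
  simp [← h1] at h0

theorem dw_eq {z : Crv} (h : z ∈ U1) (v : ℂ) : (dtw z v).2 = -(tw z).1 * eta1 z v := by
  have h1 := dtw_rel h v
  unfold eta1
  linear_combination -h1

theorem dt_eq {z : Crv} (h : z ∈ U1) (v : ℂ) : (dtw z v).1 =
    -(1 - 5 * (tw z).1 ^ 2 * (tw z).2 ^ 4) / (2 * (1 + (tw z).2 ^ 5)) * eta1 z v := by
  have h1 := dtw_rel h v
  have h2 := one_add_ne h
  unfold eta1
  field_simp
  linear_combination (5 * (tw z).1 * (tw z).2 ^ 4) * h1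

theorem eta0_eq_zero {z : Crv} (h : z ∈ U0) {v : ℂ} (hv : eta0 z v = 0) : v = 0 :=
  (injective_iff_map_eq_zero _).mp (dxy_inj h) v
    (Prod.ext (by rw [dx_eq h, hv]; simp) (by rw [dy_eq h, hv]; simp))

theorem eta1_eq_zero {z : Crv} (h : z ∈ U1) {v : ℂ} (hv : eta1 z v = 0) : v = 0 :=
  (injective_iff_map_eq_zero _).mp (dtw_inj h) v
    (Prod.ext (by rw [dt_eq h, hv]; simp) (by rw [dw_eq h, hv]; simp))

theorem eta0_eq {z : Crv} (h0 : z ∈ U0) (h1 : z ∈ U1) (v : ℂ) :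
    eta0 z v = (tw z).1 ^ 2 * eta1 z v := by
  obtain ⟨h2, h3⟩ := (mem_U1 h0).mp h1
  have h4 : HasFDerivAt (fun p : ℂ × ℂ => p.1⁻¹) _ (xy z) :=
    (hasDerivAt_inv h2).comp_hasFDerivAt (xy z) (hasFDerivAt_fst (𝕜 := ℂ))
  have h5 := D_comp_xy h0 h4.differentiableAt
  have h6 := D_comp_tw h1 (differentiableAt_snd (𝕜 := ℂ))
  have h7 := congrArg (fun L : ℂ →L[ℂ] ℂ => L v) (h5.symm.trans h6)
  simp only [h4.fderiv, fderiv_snd, ContinuousLinearMap.comp_apply, smul_apply,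
    ContinuousLinearMap.coe_fst', ContinuousLinearMap.coe_snd', smul_eq_mul, dx_eq h0,
    dw_eq h1] at h7
  simp only [tw, tau] at h7 ⊢
  field_simp at h7 ⊢
  linear_combination -h7

end Pool.Agent.Lib.AD7
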