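import Mathlib

/-! Charts of smooth plane curves and connectedness of hyperelliptic curves. -/

open scoped ContDiff Topology
open Set Filter

noncomputable section

namespace Pool.Agent.Lib.AD7

open Classical in
/-- the slice `{Q = 0}` of a chart `(Q, l)` of the ambient space -/
def slice {E F K : Type} [TopologicalSpace E] [TopologicalSpace F] [TopologicalSpace K] [Zero F]
    (Φ : OpenPartialHomeomorph E (F × K)) (S : Set E) (hS : ∀ x, x ∈ S ↔ (Φ x).1 = 0) (p : S) :
    OpenPartialHomeomorph S K where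
  toFun x := (Φ x).2
  invFun z := if h : (0, z) ∈ Φ.target then ⟨Φ.symm (0, z), (hS _).mpr (by rw [Φ.right_inv h])⟩
    else p
  source := Subtype.val ⁻¹' Φ.source
  target := {z | (0, z) ∈ Φ.target}
  map_source' x hx := by
    change (0, (Φ x).2) ∈ Φ.target
    rw [← (hS _).mp x.2]
    exact Φ.map_source hx
  map_target' z hz := by
    have hz' : (0, z) ∈ Φ.target := hz
    rw [dif_pos hz']
    exact Φ.map_target hz'
  left_inv' x hx := by
    have h1 : (0, (Φ x).2) = Φ x := by rw [← (hS _).mp x.2]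
    rw [dif_pos (by rw [h1]; exact Φ.map_source hx)]
    exact Subtype.ext (by simp only [h1]; exact Φ.left_inv hx)
  right_inv' z hz := by
    have hz' : (0, z) ∈ Φ.target := hz
    rw [dif_pos hz']
    simp only [Φ.right_inv hz']
  open_source := Φ.open_source.preimage continuous_subtype_val
  open_target := Φ.open_target.preimage (by fun_prop)
  continuousOn_toFun := continuous_snd.comp_continuousOn
    (Φ.continuousOn.comp continuous_subtype_val.continuousOn fun _ hx => hx)
  continuousOn_invFun := by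
    rw [Topology.IsInducing.subtypeVal.continuousOn_iff]
    refine ContinuousOn.congr (f := fun z => Φ.symm (0, z))
      (Φ.continuousOn_symm.comp (Continuous.continuousOn (by fun_prop)) fun _ hz => hz)
      fun z hz => ?_
    have hz' : (0, z) ∈ Φ.target := hz
    exact congrArg Subtype.val (dif_pos hz')

/-- inverse function theorem with a holomorphic inverse on the whole target -/
theorem exists_local_inv {E F : Type} [NormedAddCommGroup E] [NormedSpace ℂ E] [CompleteSpace E]
    [NormedAddCommGroup F] [NormedSpace ℂ F] {f : E → F} {a : E} (hf : ContDiffAt ℂ ω f a)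
    (e : E ≃L[ℂ] F) (he : HasFDerivAt f (e : E →L[ℂ] F) a) :
    ∃ Φ : OpenPartialHomeomorph E F, a ∈ Φ.source ∧ (∀ x, Φ x = f x) ∧
      ContDiffOn ℂ ω Φ.symm Φ.target := by
  have h1 := (hf.to_localInverse he (by simp)).eventually (by simp)
  obtain ⟨U, hU, hUo, haU⟩ := eventually_nhds_iff.mp h1
  refine ⟨((hf.toOpenPartialHomeomorph f he (by simp)).symm.restrOpen U hUo).symm,
    ?_, fun _ => rfl, fun y hy => (hU y hy.2).contDiffWithinAt⟩
  exact ⟨hf.mem_toOpenPartialHomeomorph_source he (by simp), haU⟩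

/-- A linear form transverse to the tangent of a plane curve is a chart of the curve. -/
theorem exists_chart {Q : ℂ × ℂ → ℂ} (p : {p // Q p = 0}) (hQ : ContDiffAt ℂ ω Q p)
    (l : ℂ × ℂ →L[ℂ] ℂ) (hl : ∀ v, l v = 0 → fderiv ℂ Q p v = 0 → v = 0) :
    ∃ φ : OpenPartialHomeomorph {p // Q p = 0} ℂ, p ∈ φ.source ∧ (∀ x, φ x = l x) ∧
      ContDiffOn ℂ ω (fun z => ((φ.symm z : {p // Q p = 0}) : ℂ × ℂ)) φ.target := by
  have hi : Function.Injective ((fderiv ℂ Q p).prod l) :=
    (injective_iff_map_eq_zero _).mpr fun v hv =>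
      hl v (congrArg Prod.snd hv) (congrArg Prod.fst hv)
  let e : (ℂ × ℂ) ≃L[ℂ] ℂ × ℂ := (LinearEquiv.ofInjectiveEndo
    ((fderiv ℂ Q p).prod l).toLinearMap hi).toContinuousLinearEquiv
  obtain ⟨Φ, h1, h2, h3⟩ := exists_local_inv (f := fun x => (Q x, l x))
    (hQ.prodMk l.contDiff.contDiffAt) e
    ((hQ.differentiableAt (by simp)).hasFDerivAt.prodMk l.hasFDerivAt)
  refine ⟨slice Φ {p | Q p = 0} (fun x => by rw [h2]; rfl) p, h1, fun x => congrArg Prod.snd (h2 x),
    ContDiffOn.congr (f := fun z => Φ.symm (0, z))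
      (h3.comp (ContDiff.contDiffOn (by fun_prop)) fun _ hz => hz) fun z hz => ?_⟩
  have hz' : (0, z) ∈ Φ.target := hz
  exact congrArg Subtype.val (dif_pos hz')

/-- The curve `y ^ 2 = f x` is connected when `f` is continuous and has a zero. -/
theorem connected_hyp {f : ℂ → ℂ} (hf : Continuous f) {z : ℂ} (hz : f z = 0) (S : Set (ℂ × ℂ))
    (hS : ∀ p, p ∈ S ↔ p.2 ^ 2 = f p.1) : ConnectedSpace S := by
  let π : S → ℂ := fun p => p.1.1
  let σ : S → S := fun p => ⟨(p.1.1, -p.1.2), (hS _).mpr (by simpa using (hS _).mp p.2)⟩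
  have hπ : Continuous π := by fun_prop
  have hσ : Continuous σ := Continuous.subtype_mk (by fun_prop) _
  have hc : IsClosed S := by
    rw [show S = {p | p.2 ^ 2 = f p.1} from Set.ext hS]
    exact isClosed_eq (by fun_prop) (by fun_prop)
  have hp : IsProperMap π := by
    refine isProperMap_iff_isCompact_preimage.mpr ⟨hπ, fun K hK => ?_⟩
    obtain ⟨R, hR⟩ := (hK.image hf).isBounded.exists_norm_le
    rw [hc.isClosedEmbedding_subtypeVal.isCompact_iff]
    refine (hK.prod (isCompact_closedBall (0 : ℂ) (R + 1))).of_isClosed_subset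
      (hc.isClosedMap_subtype_val _ (hK.isClosed.preimage hπ)) ?_
    rintro _ ⟨p, hp, rfl⟩
    refine ⟨hp, mem_closedBall_zero_iff.mpr ?_⟩
    have h1 := hR _ ⟨_, hp, rfl⟩
    rw [show f (π p) = p.1.2 ^ 2 from ((hS _).mp p.2).symm, norm_pow] at h1
    nlinarith [norm_nonneg p.1.2]
  have hs : Function.Surjective π := fun x => by
    obtain ⟨y, hy⟩ := IsAlgClosed.exists_pow_nat_eq (f x) two_pos
    exact ⟨⟨(x, y), (hS _).mpr hy⟩, rfl⟩
  have hq := hp.isClosedMap.isQuotientMap hπ hs
  have hfib : ∀ p q : S, π p = π q → p = q ∨ p = σ q := fun p q h => by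
    have h1 : p.1.2 ^ 2 = q.1.2 ^ 2 := by
      rw [(hS _).mp p.2, (hS _).mp q.2]; exact congrArg f h
    exact (sq_eq_sq_iff_eq_or_eq_neg.mp h1).imp (fun h2 => Subtype.ext (Prod.ext h h2))
      fun h2 => Subtype.ext (Prod.ext h h2)
  have hσσ : ∀ p, σ (σ p) = p := fun p => Subtype.ext (Prod.ext rfl (neg_neg _))
  have key : ∀ U : Set S, IsClopen U → (∀ p ∈ U, σ p ∈ U) → U = ∅ ∨ U = univ := fun U hU hi => by
    have h1 : π ⁻¹' (π '' U) = U := by
      refine Subset.antisymm ?_ (subset_preimage_image _ _)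
      rintro p ⟨q, hq, h⟩
      rcases hfib p q h.symm with rfl | rfl
      exacts [hq, hi q hq]
    rcases isClopen_iff.mp (hq.isClopen_preimage.mp (h1.symm ▸ hU)) with h | h
    · exact Or.inl (image_eq_empty.mp h)
    · exact Or.inr (by rw [← h1, h, preimage_univ])
  let o : S := ⟨(z, 0), (hS _).mpr (by simp [hz])⟩
  have ho : σ o = o := Subtype.ext (Prod.ext rfl neg_zero)
  refine { preconnectedSpace_iff_clopen.mpr (fun U hU => key U hU fun p hp => ?_) with
    toNonempty := ⟨o⟩ }
  by_contra hn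
  have hD : IsClopen ((U \ σ ⁻¹' U) ∪ (σ ⁻¹' U \ U)) :=
    (hU.diff (hU.preimage hσ)).union ((hU.preimage hσ).diff hU)
  rcases key _ hD (fun q hq => by
    simp only [mem_union, Set.mem_sdiff, mem_preimage, hσσ] at hq ⊢; tauto) with h | h
  · exact (h ▸ (Or.inl ⟨hp, hn⟩ : p ∈ (U \ σ ⁻¹' U) ∪ (σ ⁻¹' U \ U)) : p ∈ (∅ : Set S))
  · have h1 : o ∈ (U \ σ ⁻¹' U) ∪ (σ ⁻¹' U \ U) := h ▸ mem_univ o
    simp only [mem_union, Set.mem_sdiff, mem_preimage, ho] at h1; tauto

end Pool.Agent.Lib.AD7
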